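import Pool.Agent.Helper421.BargmannDefs
import Pool.Agent.Y165.FK.D

/-!
# Compact resolvents of Toeplitz operators: counterexamples in all dimensions and even degrees
-/

set_option autoImplicit false

namespace Pool.Agent.Results.MP_d26497_an.AllDimensions

open Pool.Agent.Helper421.BargmannDefs

/-- For every dimension `n ≥ 2` and all even degrees `2 ≤ 2 l < 2 m` there are a homogeneous
polynomial `ψ ≥ 0` of degree `2 m` and a real homogeneous polynomial `φ₁` of degree `2 l` in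
`z, z̄` such that the closure of `T_ψ` has compact resolvent while the closure of `T_{ψ + φ₁}` does
not; the kernel of `T_{ψ + φ₁}` even contains an infinite orthonormal sequence. -/
theorem result : ∀ n : ℕ, 2 ≤ n → ∀ l m : ℕ, 1 ≤ l → l < m →
    ∃ ψ φ₁ : MvPolynomial (Fin n ⊕ Fin n) ℂ,
      ψ.IsHomogeneous (2 * m) ∧ φ₁.IsHomogeneous (2 * l) ∧
      (∀ z, ∃ x : ℝ, 0 ≤ x ∧ symbol ψ z = x) ∧ (∀ z, ∃ x : ℝ, symbol φ₁ z = x) ∧
      ToeplitzClosable n (symbol ψ) ∧ ToeplitzClosable n (symbol (ψ + φ₁)) ∧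
      ToeplitzCompactResolvent n (symbol ψ) ∧
      ¬ ToeplitzCompactResolvent n (symbol (ψ + φ₁)) ∧
      ∃ v : ℕ → H2 n, Orthonormal ℂ v ∧
        ∀ k, ∃ h : v k ∈ (toeplitz n (symbol (ψ + φ₁))).domain,
          toeplitz n (symbol (ψ + φ₁)) ⟨v k, h⟩ = 0 := by
  intro n hn l m hl hlm
  obtain ⟨N, rfl⟩ : ∃ N, n = N + 2 := ⟨n - 2, by omega⟩
  obtain ⟨r, hr, rfl⟩ : ∃ r, 1 ≤ r ∧ m = l + r := ⟨m - l, by omega, by omega⟩
  have h := Pool.Agent.Y165.FK.main (N := N) hl hr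
  exact ⟨Pool.Agent.Y165.FK.psi N l r, Pool.Agent.Y165.FK.phi1 N l r,
    Pool.Agent.Y165.FK.psi_hom N l r, Pool.Agent.Y165.FK.phi1_hom N l r,
    Pool.Agent.Y165.FK.psi_real N l r,
    fun z => ⟨_, Pool.Agent.Y165.FK.phi1_real N l r z⟩,
    h.1, h.2.1, h.2.2.1, h.2.2.2, Pool.Agent.Y165.FK.kernel N l r⟩

end Pool.Agent.Results.MP_d26497_an.AllDimensions
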